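import Pool.Agent.W187.CV.Stm
import Pool.Agent.W187.UR.Bel

/-! Project CV, part BELX: the logarithm below the segment, complex coefficients. The proof is the one
of `Pool.Agent.W187.UR.BelC` (helper187) without the reality hypothesis. -/

set_option autoImplicit false

namespace Pool.Agent.W676.CV

open Complex MeasureTheory Filter Topology Set
open Pool.Agent.W189.ML Pool.Agent.W189.LC Pool.Agent.W187.UR Pool.Agent.W187.CV

theorem const_near {f : ℂ → ℂ} (hc : ContinuousAt f 2) (he : ∀ᶠ w in 𝓝 (2 : ℂ), exp (f w) = 1) :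
    ∀ᶠ w in 𝓝 (2 : ℂ), f w = f 2 := by
  have h2 : exp (f 2) = 1 := he.self_of_nhds
  have h3 : ∀ᶠ w in 𝓝 (2 : ℂ), dist (f w) (f 2) < 1 := by
    exact hc.eventually (Metric.ball_mem_nhds (f 2) one_pos)
  filter_upwards [he, h3] with w h4 h5
  have h6 : exp (f w - f 2) = 1 := by rw [Complex.exp_sub, h4, h2, div_one]
  have h7 : |(f w - f 2).im| < 1 := by
    rw [Complex.dist_eq] at h5
    exact (Complex.abs_im_le_norm _).trans_lt h5
  have hpi := Real.pi_gt_three
  rw [abs_lt] at h7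
  have h8 : log (exp (f w - f 2)) = f w - f 2 :=
    Complex.log_exp (by linarith [h7.1]) (by linarith [h7.2])
  rw [h6, Complex.log_one] at h8
  exact sub_eq_zero.1 h8.symm

theorem belx (h : S_FACX) (hroot : S_ROOT) : S_BELX := by
  intro Φ g h1 h3 h4 m hm
  obtain ⟨Z, n, Q, hZ, hQa, hQ0, hQ2, htr⟩ := h Φ g h1 h3 h4 m hm
  obtain ⟨N, R, hN, hRa, hRs, hRQ⟩ := hroot Q hQa hQ0
  obtain ⟨δ₁, hδ₁, M, hM0, hM⟩ := rect hRa hRs
  -- the branch near `2`
  have h22 : (2 : ℝ) ∈ Icc (0 : ℝ) 2 := ⟨by norm_num, le_rfl⟩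
  have h00 : (0 : ℝ) ∈ Icc (0 : ℝ) 2 := ⟨le_rfl, by norm_num⟩
  have hRa2 : AnalyticAt ℂ R 2 := by simpa using hRa 2 h22
  have hRs2 : R 2 ∈ slitPlane := by simpa using hRs 2 h22
  have hRQ2 : ∀ᶠ w in 𝓝 (2 : ℂ), R w ^ N = Q w := by simpa using hRQ 2 h22
  have hRQ0 : R 0 ^ N = Q 0 := by
    have := (hRQ 0 h00).self_of_nhds
    simpa using this
  have hg2 : AnalyticAt ℂ g 2 := h3 2 (by norm_num)
  have hne2 : ∀ x ∈ Z, (2 : ℂ) - (x : ℂ) ∈ slitPlane := by
    intro x hx
    left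
    have := (hZ x hx).2
    simp
    linarith
  have hs2 : (2 : ℂ) ∈ slitPlane := by left; simp
  set L₀ : ℂ → ℂ := fun w => g w - m * log w - (∑ x ∈ Z, (n x : ℂ) * log (w - x))
    - N * log (R w) with hL₀
  have hL₀c : ContinuousAt L₀ 2 := by
    refine ContinuousAt.sub (ContinuousAt.sub (hg2.continuousAt.sub ?_) ?_) ?_
    · exact continuousAt_const.mul (ContinuousAt.clog continuousAt_id hs2)
    · refine tendsto_finsetSum _ fun x hx => ?_
      exact continuousAt_const.mul (ContinuousAt.clog (by fun_prop) (hne2 x hx))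
    · exact continuousAt_const.mul (ContinuousAt.clog hRa2.continuousAt hRs2)
  have hL₀e : ∀ᶠ w in 𝓝 (2 : ℂ), exp (L₀ w) = 1 := by
    have e1 : ∀ᶠ w in 𝓝 (2 : ℂ), w ∈ slitPlane := isOpen_slitPlane.mem_nhds hs2
    have e2 : ∀ᶠ w in 𝓝 (2 : ℂ), ∀ x ∈ Z, w - (x : ℂ) ∈ slitPlane := by
      rw [Filter.eventually_all_finset]
      intro x hx
      have : ContinuousAt (fun w : ℂ => w - (x : ℂ)) 2 := by fun_prop
      exact this.eventually (isOpen_slitPlane.mem_nhds (hne2 x hx))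
    have e3 : ∀ᶠ w in 𝓝 (2 : ℂ), R w ∈ slitPlane :=
      hRa2.continuousAt.eventually (isOpen_slitPlane.mem_nhds hRs2)
    filter_upwards [hQ2, e1, e2, e3, hRQ2] with w h6 h7 h8 h9' h9''
    have h9 : w ≠ 0 := slitPlane_ne_zero h7
    have h10 : ∀ x ∈ Z, w - (x : ℂ) ≠ 0 := fun x hx => slitPlane_ne_zero (h8 x hx)
    have hR0 : R w ≠ 0 := slitPlane_ne_zero h9'
    rw [hL₀]
    simp only
    rw [Complex.exp_sub, Complex.exp_sub, Complex.exp_sub, h6, Complex.exp_int_mul,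
      Complex.exp_log h9, Complex.exp_sum, Complex.exp_nat_mul, Complex.exp_log hR0, h9'']
    have h11 : ∏ x ∈ Z, exp ((n x : ℂ) * log (w - x)) = ∏ x ∈ Z, (w - (x : ℂ)) ^ (n x) :=
      Finset.prod_congr rfl fun x hx => by
        rw [Complex.exp_int_mul, Complex.exp_log (h10 x hx)]
    rw [h11]
    have h12 : ∏ x ∈ Z, (w - (x : ℂ)) ^ (n x) ≠ 0 :=
      Finset.prod_ne_zero_iff.2 fun x hx => zpow_ne_zero _ (h10 x hx)
    have h13 : w ^ m ≠ 0 := zpow_ne_zero _ h9
    have h14 : Q w ≠ 0 := by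
      rw [← h9'']
      exact pow_ne_zero _ hR0
    field_simp
  have hκ1 : exp (L₀ 2) = 1 := hL₀e.self_of_nhds
  obtain ⟨δ₂, hδ₂, hbr⟩ := Metric.eventually_nhds_iff.1 (const_near hL₀c hL₀e)
  set κ : ℂ := L₀ 2 with hκ
  set η : ℝ := min (min δ₁ (δ₂ / 2)) 1 with hη
  have hη0 : 0 < η := lt_min (lt_min hδ₁ (by positivity)) one_pos
  set L : ℂ → ℂ := fun w => m * log w + (∑ x ∈ Z, (n x : ℂ) * log (w - x)) + N * log (R w) + κ
    with hL
  set r₀ : ℂ := (∑ x ∈ Z, (n x : ℂ) * (Real.log x - Real.pi * I)) + N * log (R 0) + κ with hr₀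
  refine ⟨η, (∑ x ∈ Z, |(n x : ℝ)| * Cx x) + N * M, L, r₀, ⟨hη0, ?_, ?_, ?_⟩, ?_, ?_⟩
  · have : 0 ≤ ∑ x ∈ Z, |(n x : ℝ)| * Cx x :=
      Finset.sum_nonneg fun x hx => mul_nonneg (abs_nonneg _) (Cx_nonneg (hZ x hx).1)
    positivity
  · intro w h6 h7 h8 h9
    have h10 : |w.im| ≤ δ₁ := by
      rw [abs_of_neg h9]
      have := (min_le_left (min δ₁ (δ₂ / 2)) 1).trans (min_le_left _ _)
      linarith
    have h11 := (hM w h6.le h7 h10).2
    rw [hL]
    refine DifferentiableAt.add_const _ (DifferentiableAt.add (DifferentiableAt.add ?_ ?_)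
      (h11.const_mul _))
    · exact (DifferentiableAt.clog differentiableAt_id (Or.inl h6)).const_mul _
    · refine DifferentiableAt.fun_sum fun x hx => ?_
      refine (DifferentiableAt.clog (by fun_prop) (Or.inr ?_)).const_mul _
      simp
      exact h9.ne
  · intro w h6 h7 h8 h9
    have h10 : |w.im| ≤ δ₁ := by
      rw [abs_of_neg h9]
      have := (min_le_left (min δ₁ (δ₂ / 2)) 1).trans (min_le_left _ _)
      linarith
    have h8' : -1 ≤ w.im := by
      have := min_le_right (min δ₁ (δ₂ / 2)) 1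
      linarith
    have h11 := (hM w h6.le h7 h10).1
    have h12 : L w - m * log w - r₀ = (∑ x ∈ Z, (n x : ℂ) *
        (log (w - x) - (Real.log x - Real.pi * I))) + N * (log (R w) - log (R 0)) := by
      rw [hL, hr₀]
      simp only [mul_sub, Finset.sum_sub_distrib]
      ring
    rw [h12]
    set X := ‖w‖ * (1 + ‖w‖ * |Real.log (-w.im)|) with hX
    have hX1 : ‖w‖ ≤ X := by
      have : 0 ≤ ‖w‖ * (‖w‖ * |Real.log (-w.im)|) := by positivity
      rw [hX]; nlinarith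
    have h13 : ‖∑ x ∈ Z, (n x : ℂ) * (log (w - x) - (Real.log x - Real.pi * I))‖ ≤
        ∑ x ∈ Z, |(n x : ℝ)| * Cx x * X := by
      refine norm_sum_le_of_le _ fun x hx => ?_
      rw [norm_mul, Complex.norm_intCast, mul_assoc]
      exact mul_le_mul_of_nonneg_left (one_zero (hZ x hx).1 (hZ x hx).2 h6 h7 h8' h9)
        (abs_nonneg _)
    rw [← Finset.sum_mul] at h13
    have h14 : ‖(N : ℂ) * (log (R w) - log (R 0))‖ ≤ N * (M * ‖w‖) := by
      rw [norm_mul, Complex.norm_natCast]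
      exact mul_le_mul_of_nonneg_left h11 (Nat.cast_nonneg _)
    calc ‖_ + (N : ℂ) * (log (R w) - log (R 0))‖
          ≤ (∑ x ∈ Z, |(n x : ℝ)| * Cx x) * X + N * (M * ‖w‖) :=
          (norm_add_le _ _).trans (add_le_add h13 h14)
      _ ≤ (∑ x ∈ Z, |(n x : ℝ)| * Cx x) * X + N * (M * X) := by gcongr
      _ = _ := by rw [hX]; ring
  · intro w h6 h7 h8
    have h9 : dist w 2 < δ₂ := by
      rw [Complex.dist_eq]
      have e1 : w - 2 = ((w.im : ℝ) : ℂ) * I := by
        apply Complex.ext <;> simp [h6]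
      rw [e1, norm_mul, Complex.norm_I, mul_one, Complex.norm_real, Real.norm_eq_abs,
        abs_of_neg h8]
      have := (min_le_left (min δ₁ (δ₂ / 2)) 1).trans (min_le_right _ _)
      linarith
    have h10 : L₀ w = κ := hbr h9
    have h10' : g w - m * log w - (∑ x ∈ Z, (n x : ℂ) * log (w - x)) - N * log (R w) = κ := h10
    rw [hL]
    simp only
    linear_combination h10'
  · have hne0 : R 0 ≠ 0 := by
      have := slitPlane_ne_zero (hRs 0 h00)
      simpa using this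
    rw [htr, hr₀, Complex.exp_add, Complex.exp_add, Complex.exp_sum, Complex.exp_nat_mul,
      Complex.exp_log hne0, hκ1, mul_one, hRQ0]
    congr 1
    refine Finset.prod_congr rfl fun x hx => ?_
    have hx0 := (hZ x hx).1
    rw [Complex.exp_int_mul, Complex.exp_sub, Complex.exp_pi_mul_I, ← Complex.ofReal_exp,
      Real.exp_log hx0]
    congr 1
    ring

end Pool.Agent.W676.CV
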